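import Pool.Agent.HUR.Fin
import Pool.Agent.HUR.G7
import Pool.Agent.HUR.Model

/-!
Rational Chow groups of Hurwitz spaces for conjugacy classes with at most two elements.

`HurRing C n` is the coordinate ring of the Hurwitz space of tuples of elements of the classes `C i`
with `n i` branch points of class `C i` in the affine line: the quotient, by the permutations of the
branch points which preserve the classes, of the variety of pairs `(a, y)`, where the positions `a m`
are pairwise different and `y m ^ 2` is the product of `a m - a l` over the branch points `l` whose
class does not commute with the class of `m` (`y m = 1` if the class of `m` is a central element).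
That this is the covering of the space of configurations with the monodromy of the Hurwitz space is
the first part of the theorem (`IsHur`). The closed subschemes given by idempotents are the unions of
connected components. The second part: all rational Chow groups in positive codimension vanish, for
every group of order eight and every choice of classes, for classes with at most two elements if the
graph of the non-commuting classes has spectral radius at most two, and in general if the numbers
`n i` satisfy the condition `Adm`. The third part: this condition has arbitrarily large solutions.
-/

namespace Pool.Agent.Results.MP_722657_ag.HurwitzChowSmallClasses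

open Pool.Agent.HUR

theorem result (G : Type) [Group G] [Finite G] (ι : Type) [Fintype ι] (C : ι → ConjClasses G)
    (hC : Nat.card G = 8 ∨ ∀ i, (C i).carrier.ncard ≤ 2) :
    (∀ (P : Type) [Fintype P] [DecidableEq P] (c : P → ι), IsHur C c) ∧
    (∀ n : ι → ℕ,
      ((Nat.card G = 8 ∧ Function.Injective C) ∨ Spec2 (ncg C) ∨ Adm (ncg C) n) →
      ∀ e < ∑ i, n i, ∀ η : HurRing C n, IsIdempotentElem η →
        Subsingleton (Chow (HurRing C n ⧸ Ideal.span {η}) e)) ∧
    ∀ N : ℕ, ∃ n : ι → ℕ, (∀ i, N ≤ n i) ∧ Adm (ncg C) n := by
  have h2 : ∀ i, (C i).carrier.ncard ≤ 2 := by
    rcases hC with h | h
    · exact card8_small h C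
    · exact h
  have hi : ∀ j, ¬ ncg C j j := fun j => ncg_irrefl_two C j (h2 j)
  refine ⟨fun P _ _ c => isHur C h2 c, ?_, exists_adm (ncg C) (ncg_symm C) hi⟩
  intro n h e he η hη
  refine main_adm (ncg C) (ncc C) (ncg_symm C) hi n ?_ e he η hη
  rcases h with ⟨hG, h⟩ | h | h
  · exact spec_adm (ncg_symm C) (card8_spec hG C h) n
  · exact spec_adm (ncg_symm C) h n
  · exact h

end Pool.Agent.Results.MP_722657_ag.HurwitzChowSmallClasses
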